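import Pool.Agent.H8.PU.Targets
import Pool.Agent.H59.PL.IS

/-!
# Planarity is invariant under embeddings which are onto up to isolated vertices
-/

set_option autoImplicit false

namespace Pool.Agent.H64.PU

open Pool.Agent.H8.PL Pool.Agent.H8.PU

section
variable {V V' : Type} {f : V → V'} {G : SimpleGraph V} {G' : SimpleGraph V'}

/-- the map of the darts -/
def dm (hadj : ∀ a b, G.Adj a b ↔ G'.Adj (f a) (f b)) (d : G.Dart) : G'.Dart :=
  ⟨(f d.fst, f d.snd), (hadj _ _).1 d.adj⟩

theorem dm_bij (hf : Function.Injective f) (hadj : ∀ a b, G.Adj a b ↔ G'.Adj (f a) (f b))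
    (hr : ∀ a b, G'.Adj a b → ∃ c, f c = a) : Function.Bijective (dm hadj) := by
  constructor
  · intro d d' h
    have h1 : f d.fst = f d'.fst := congrArg (fun x : G'.Dart => x.fst) h
    have h2 : f d.snd = f d'.snd := congrArg (fun x : G'.Dart => x.snd) h
    apply SimpleGraph.Dart.ext
    exact Prod.ext (hf h1) (hf h2)
  · intro d'
    obtain ⟨a, ha⟩ := hr _ _ d'.adj
    obtain ⟨b, hb⟩ := hr _ _ d'.adj.symm
    have hab : G.Adj a b := by
      rw [hadj, ha, hb]
      exact d'.adj
    refine ⟨⟨(a, b), hab⟩, ?_⟩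
    apply SimpleGraph.Dart.ext
    exact Prod.ext ha hb

theorem reach (hadj : ∀ a b, G.Adj a b ↔ G'.Adj (f a) (f b))
    (hr : ∀ a b, G'.Adj a b → ∃ c, f c = a) {x y : V'} (p : G'.Walk x y) :
    ∀ a, f a = x → ∃ c, f c = y ∧ G.Reachable a c := by
  induction p with
  | nil => exact fun a ha => ⟨a, ha, SimpleGraph.Reachable.refl _⟩
  | cons h p ih =>
    intro a ha
    obtain ⟨c, hc⟩ := hr _ _ h.symm
    obtain ⟨e, he, hce⟩ := ih c hc
    have hac : G.Adj a c := by
      rw [hadj, ha, hc]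
      exact h
    exact ⟨e, he, hac.reachable.trans hce⟩

/-- the two sides of the inequality -/
theorem main (hf : Function.Injective f) (hadj : ∀ a b, G.Adj a b ↔ G'.Adj (f a) (f b))
    (hr : ∀ a b, G'.Adj a b → ∃ c, f c = a) (D : G.Dart ≃ G'.Dart) (hD : ∀ d, D d = dm hadj d)
    (σ : Equiv.Perm G.Dart) :
    (IsRotation G σ ↔ IsRotation G' (D.permCongr σ)) ∧
    Nat.card G'.edgeSet = Nat.card G.edgeSet ∧
    Nat.card {K : G'.ConnectedComponent // ∃ d : G'.Dart, G'.connectedComponentMk d.fst = K} =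
      Nat.card {K : G.ConnectedComponent // ∃ d : G.Dart, G.connectedComponentMk d.fst = K} ∧
    Nat.card {v : V' // ∃ d : G'.Dart, d.fst = v} =
      Nat.card {v : V // ∃ d : G.Dart, d.fst = v} ∧
    Nat.card (Quotient (Equiv.Perm.SameCycle.setoid (facePerm G' (D.permCongr σ)))) =
      Nat.card (Quotient (Equiv.Perm.SameCycle.setoid (facePerm G σ))) := by
  have hfst : ∀ d, (D d).fst = f d.fst := fun d => by rw [hD]; rfl
  have hsnd : ∀ d, (D d).snd = f d.snd := fun d => by rw [hD]; rfl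
  have hsym : ∀ d, (D d).symm = D d.symm := fun d => by rw [hD, hD]; rfl
  refine ⟨?_, ?_, ?_, ?_, ?_⟩
  · constructor
    · intro h
      constructor
      · intro d
        obtain ⟨d, rfl⟩ := D.surjective d
        rw [Equiv.permCongr_apply, Equiv.symm_apply_apply, hfst, hfst, h.fst]
      · intro d d' hd
        obtain ⟨d, rfl⟩ := D.surjective d
        obtain ⟨d', rfl⟩ := D.surjective d'
        rw [hfst, hfst] at hd
        exact (Pool.Agent.H59.PL.sameCycle_permCongr D σ _ _).1 (h.cyc _ _ (hf hd))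
    · intro h
      constructor
      · intro d
        have h1 := h.fst (D d)
        rw [Equiv.permCongr_apply, Equiv.symm_apply_apply, hfst, hfst] at h1
        exact hf h1
      · intro d d' hd
        refine (Pool.Agent.H59.PL.sameCycle_permCongr D σ _ _).2 (h.cyc _ _ ?_)
        rw [hfst, hfst, hd]
  · refine (Nat.card_congr (Equiv.ofBijective
      (fun e : G.edgeSet => (⟨Sym2.map f e.1, ?_⟩ : G'.edgeSet)) ⟨?_, ?_⟩)).symm
    · obtain ⟨e, he⟩ := e
      induction e using Sym2.ind with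
      | _ a b =>
        exact (hadj _ _).1 he
    · intro e e' h
      apply Subtype.ext
      exact Sym2.map.injective hf (congrArg Subtype.val h)
    · rintro ⟨e, he⟩
      induction e using Sym2.ind with
      | _ a b =>
        have hab : G'.Adj a b := he
        obtain ⟨a, rfl⟩ := hr _ _ hab
        obtain ⟨b, rfl⟩ := hr _ _ hab.symm
        exact ⟨⟨s(a, b), (hadj _ _).2 hab⟩, Subtype.ext rfl⟩
  · let hom : G →g G' := ⟨f, fun {a b} h => (hadj a b).1 h⟩
    refine (Nat.card_congr (Equiv.ofBijective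
      (fun K : {K : G.ConnectedComponent // ∃ d : G.Dart, G.connectedComponentMk d.fst = K} =>
        (⟨K.1.map hom, ?_⟩ : {K : G'.ConnectedComponent // ∃ d : G'.Dart,
          G'.connectedComponentMk d.fst = K})) ⟨?_, ?_⟩)).symm
    · obtain ⟨K, d, rfl⟩ := K
      refine ⟨D d, ?_⟩
      rw [hfst]
      rfl
    · rintro ⟨K, d, rfl⟩ ⟨K', d', rfl⟩ h
      have h1 : G'.connectedComponentMk (f d.fst) = G'.connectedComponentMk (f d'.fst) :=
        congrArg Subtype.val h
      apply Subtype.ext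
      obtain ⟨p⟩ := SimpleGraph.ConnectedComponent.exact h1
      obtain ⟨c, hc, hr'⟩ := reach hadj hr p _ rfl
      rw [hf hc] at hr'
      exact SimpleGraph.ConnectedComponent.sound hr'
    · rintro ⟨K, d, rfl⟩
      obtain ⟨d, rfl⟩ := D.surjective d
      refine ⟨⟨G.connectedComponentMk d.fst, d, rfl⟩, ?_⟩
      apply Subtype.ext
      exact (congrArg G'.connectedComponentMk (hfst d)).symm
  · refine (Nat.card_congr (Equiv.ofBijective
      (fun v : {v : V // ∃ d : G.Dart, d.fst = v} =>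
        (⟨f v.1, ?_⟩ : {v : V' // ∃ d : G'.Dart, d.fst = v})) ⟨?_, ?_⟩)).symm
    · obtain ⟨v, d, rfl⟩ := v
      exact ⟨D d, hfst d⟩
    · intro v v' h
      exact Subtype.ext (hf (congrArg Subtype.val h))
    · rintro ⟨v, d, rfl⟩
      obtain ⟨d, rfl⟩ := D.surjective d
      exact ⟨⟨d.fst, d, rfl⟩, Subtype.ext (hfst d).symm⟩
  · have hfp : facePerm G' (D.permCongr σ) = D.permCongr (facePerm G σ) := by
      ext1 d
      obtain ⟨d, rfl⟩ := D.surjective d
      change (D.permCongr σ) (D d).symm = _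
      rw [hsym, Equiv.permCongr_apply, Equiv.permCongr_apply, Equiv.symm_apply_apply,
        Equiv.symm_apply_apply]
      rfl
    refine (Nat.card_congr (Quotient.congr D fun a b => ?_)).symm
    rw [hfp]
    exact Pool.Agent.H59.PL.sameCycle_permCongr D (facePerm G σ) a b

end

theorem pf_em : Y_EM := by
  intro V V' f G G' hf hadj hr
  let D : G.Dart ≃ G'.Dart := Equiv.ofBijective (dm hadj) (dm_bij hf hadj hr)
  have hD : ∀ d, D d = dm hadj d := fun d => rfl
  constructor
  · rintro ⟨σ, hσ, hc⟩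
    obtain ⟨h1, h2, h3, h4, h5⟩ := main hf hadj hr D hD σ
    refine ⟨D.permCongr σ, h1.1 hσ, ?_⟩
    rw [h2, h3, h4, h5]
    exact hc
  · rintro ⟨σ, hσ, hc⟩
    obtain ⟨τ, rfl⟩ : ∃ τ, D.permCongr τ = σ := D.permCongr.surjective σ
    obtain ⟨h1, h2, h3, h4, h5⟩ := main hf hadj hr D hD τ
    rw [h2, h3, h4, h5] at hc
    exact ⟨τ, h1.2 hσ, hc⟩

end Pool.Agent.H64.PU
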